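import Pool.Agent.U863.TG.Fs
import Pool.Agent.U863.CT.Gpd
import Pool.Agent.U863.CT.Tfp

/-!
# Embeddings in two-generator groups

Owner helper863.
-/

set_option autoImplicit false

namespace Pool.Agent.U863.TG

open Pool.Agent.Y462.SS (Wr Closed)
open Pool.Agent.Y110.FJ

section basic

variable {A : Type} [Group A]

/-- the shift by `k` -/
def sh (A : Type) [Group A] (k : ℤ) : Wr ℤ A := ⟨fun _ => 1, Equiv.addRight k⟩

/-- a function on `ℤ` -/
def fn (φ : ℤ → A) : Wr ℤ A := ⟨φ, 1⟩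

theorem fn_mul (φ ψ : ℤ → A) : fn φ * fn ψ = fn (fun x => φ x * ψ x) := by
  ext x
  · rfl
  · rfl

theorem fn_inv (φ : ℤ → A) : (fn φ)⁻¹ = fn (fun x => (φ x)⁻¹) := by
  ext x
  · rfl
  · rfl

theorem sh_fn (k : ℤ) (φ : ℤ → A) : sh A k * fn φ * (sh A k)⁻¹ = fn (fun x => φ (x - k)) := by
  ext x
  · show 1 * φ ((Equiv.addRight k)⁻¹ x) * (1 : A)⁻¹ = φ (x - k)
    rw [one_mul, inv_one, mul_one]
    rfl
  · show (Equiv.addRight k) ((1 : Equiv.Perm ℤ) ((Equiv.addRight k)⁻¹ x)) = x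
    simp

theorem sh_zpow (k : ℤ) : (sh A 1) ^ k = sh A k := by
  have h1 : ∀ n : ℕ, (sh A 1) ^ n = sh A n := by
    intro n
    induction n with
    | zero =>
      rw [pow_zero]
      ext x
      · rfl
      · show x = x + ((0 : ℕ) : ℤ)
        simp
    | succ n ih =>
      rw [pow_succ, ih]
      ext x
      · show (1 : A) * 1 = 1
        rw [mul_one]
      · show x + 1 + (n : ℤ) = x + ((n + 1 : ℕ) : ℤ)
        push_cast
        ring
  rcases Int.eq_nat_or_neg k with ⟨n, rfl | rfl⟩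
  · rw [zpow_natCast, h1]
  · rw [zpow_neg, zpow_natCast, h1]
    ext x
    · show (1 : A)⁻¹ = 1
      rw [inv_one]
    · show (Equiv.addRight (n : ℤ))⁻¹ x = x + -(n : ℤ)
      rfl

/-- the embedding at the coordinate `k` -/
def dlt (k : ℤ) : A →* Wr ℤ A where
  toFun a := fn (Pi.mulSingle k a)
  map_one' := by
    rw [Pi.mulSingle_one]
    rfl
  map_mul' a b := by
    rw [fn_mul, Pi.mulSingle_mul]
    rfl

theorem dlt_inj (k : ℤ) : Function.Injective (dlt (A := A) k) := by
  intro a b h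
  have h1 := congrArg (fun c : Wr ℤ A => c.s k) h
  have h2 : (Pi.mulSingle k a : ℤ → A) k = (Pi.mulSingle k b : ℤ → A) k := h1
  rwa [Pi.mulSingle_eq_same, Pi.mulSingle_eq_same] at h2

/-- the shift amount -/
def Sh (a : Wr ℤ A) (k : ℤ) : Prop := a.p = Equiv.addRight k

theorem Sh.mul {a b : Wr ℤ A} {k l : ℤ} (ha : Sh a k) (hb : Sh b l) : Sh (a * b) (l + k) := by
  show a.p * b.p = _
  rw [ha, hb]
  ext x
  show x + l + k = x + (l + k)
  ring

theorem Sh.inv {a : Wr ℤ A} {k : ℤ} (ha : Sh a k) : Sh a⁻¹ (-k) := by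
  show a.p⁻¹ = _
  rw [ha]
  ext x
  rfl

/-- torsion-free -/
def TorF (G : Type) [Group G] : Prop := ∀ g : G, ∀ n : ℕ, 0 < n → g ^ n = 1 → g = 1

theorem Sh.tf (hA : TorF A) {a : Wr ℤ A} {k : ℤ} (ha : Sh a k) {n : ℕ} (hn : 0 < n)
    (h : a ^ n = 1) : a = 1 := by
  have h1 : ∀ m : ℕ, Sh (a ^ m) (m * k) := by
    intro m
    induction m with
    | zero =>
      rw [pow_zero]
      show (1 : Equiv.Perm ℤ) = _
      ext x
      simp
    | succ m ih =>
      rw [pow_succ]
      have := ih.mul ha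
      have h2 : k + (m : ℤ) * k = ((m + 1 : ℕ) : ℤ) * k := by push_cast; ring
      rwa [h2] at this
  have hk : k = 0 := by
    have h2 := h1 n
    rw [h] at h2
    have h3 : (0 : ℤ) = 0 + (n : ℤ) * k := congrArg (fun e : Equiv.Perm ℤ => e 0) h2
    rw [zero_add] at h3
    rcases mul_eq_zero.1 h3.symm with h4 | h4
    · exact absurd (Int.natCast_eq_zero.1 h4) hn.ne'
    · exact h4
  subst hk
  have hp : a.p = 1 := by
    rw [ha]
    ext x
    simp
  have h3 : ∀ (m : ℕ) (x : ℤ), (a ^ m).s x = (a.s x) ^ m := by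
    intro m
    induction m with
    | zero =>
      intro x
      rw [pow_zero, pow_zero]
      rfl
    | succ m ih =>
      intro x
      rw [pow_succ, Wr.mul_s, hp, Equiv.Perm.one_apply, ih, pow_succ]
  ext x
  · have h4 := h3 n x
    rw [h] at h4
    exact hA _ n hn h4.symm
  · rw [hp]
    rfl

end basic

section ev

/-- the eventually constant elements -/
def Ev (A : Type) [Group A] : Subgroup (Wr ℤ A) where
  carrier := {a | ∃ (k N : ℤ) (c : A), Sh a k ∧ ∀ x, (N ≤ x → a.s x = c) ∧ (x ≤ -N → a.s x = 1)}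
  one_mem' := ⟨0, 0, 1, by
    show (1 : Equiv.Perm ℤ) = _
    ext x
    simp, fun _ => ⟨fun _ => rfl, fun _ => rfl⟩⟩
  mul_mem' := by
    rintro a b ⟨k, N, c, ha, hac⟩ ⟨l, M, d, hb, hbd⟩
    refine ⟨l + k, |N| + |M| + |l|, c * d, ha.mul hb, fun x => ⟨fun hx => ?_, fun hx => ?_⟩⟩
    · have h1 : b.p x = x + l := by rw [hb]; rfl
      have h2 := le_abs_self N
      have h3 := le_abs_self M
      have h4 := neg_abs_le l
      have h5 := abs_nonneg N
      have h6 := abs_nonneg M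
      have h7 := abs_nonneg l
      rw [Wr.mul_s, h1, (hac _).1 (by linarith), (hbd _).1 (by linarith)]
    · have h1 : b.p x = x + l := by rw [hb]; rfl
      have h2 := le_abs_self N
      have h3 := le_abs_self M
      have h4 := le_abs_self l
      have h5 := abs_nonneg N
      have h6 := abs_nonneg M
      have h7 := abs_nonneg l
      rw [Wr.mul_s, h1, (hac _).2 (by linarith), (hbd _).2 (by linarith), mul_one]
  inv_mem' := by
    rintro a ⟨k, N, c, ha, hac⟩
    refine ⟨-k, |N| + |k|, c⁻¹, ha.inv, fun x => ⟨fun hx => ?_, fun hx => ?_⟩⟩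
    · have h1 : a.p⁻¹ x = x + -k := by rw [ha]; rfl
      have h2 := le_abs_self N
      have h4 := le_abs_self k
      rw [Wr.inv_s, h1, (hac _).1 (by linarith)]
    · have h1 : a.p⁻¹ x = x + -k := by rw [ha]; rfl
      have h2 := le_abs_self N
      have h4 := neg_abs_le k
      rw [Wr.inv_s, h1, (hac _).2 (by linarith), inv_one]

variable {A : Type} [Group A]

/-- the limit at infinity and the shift -/
theorem Ev.ex (a : Ev A) : ∃ p : A × Multiplicative ℤ, Sh (a : Wr ℤ A) p.2.toAdd ∧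
    ∃ N : ℤ, ∀ x, N ≤ x → (a : Wr ℤ A).s x = p.1 := by
  obtain ⟨a, k, N, c, ha, hac⟩ := a
  exact ⟨(c, Multiplicative.ofAdd k), ha, N, fun x => (hac x).1⟩

omit [Group A] in
theorem Ev.uniq {a : Wr ℤ A} {p q : A × Multiplicative ℤ} (hp : Sh a p.2.toAdd)
    (hp' : ∃ N : ℤ, ∀ x, N ≤ x → a.s x = p.1) (hq : Sh a q.2.toAdd)
    (hq' : ∃ N : ℤ, ∀ x, N ≤ x → a.s x = q.1) : p = q := by
  obtain ⟨N, hN⟩ := hp'
  obtain ⟨M, hM⟩ := hq'
  refine Prod.ext ?_ ?_
  · rw [← hN (max N M) (le_max_left _ _), hM (max N M) (le_max_right _ _)]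
  · rw [Sh, hp] at hq
    have h1 : (0 : ℤ) + p.2.toAdd = 0 + q.2.toAdd := congrArg (fun e : Equiv.Perm ℤ => e 0) hq
    rw [zero_add, zero_add] at h1
    exact h1

/-- the limit at infinity and the shift -/
noncomputable def lam (A : Type) [Group A] : Ev A →* A × Multiplicative ℤ where
  toFun a := Classical.choose (Ev.ex a)
  map_one' := by
    obtain ⟨h1, h2⟩ := Classical.choose_spec (Ev.ex (1 : Ev A))
    refine Ev.uniq h1 h2 (q := 1) ?_ ⟨0, fun _ _ => rfl⟩
    show (1 : Equiv.Perm ℤ) = _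
    ext x
    simp
  map_mul' a b := by
    obtain ⟨h1, h2⟩ := Classical.choose_spec (Ev.ex (a * b))
    obtain ⟨ha1, N, ha2⟩ := Classical.choose_spec (Ev.ex a)
    obtain ⟨hb1, M, hb2⟩ := Classical.choose_spec (Ev.ex b)
    refine Ev.uniq h1 h2 ?_ ⟨|N| + |M| + |(Classical.choose (Ev.ex b)).2.toAdd|, fun x hx => ?_⟩
    · have h3 := ha1.mul hb1
      rw [add_comm] at h3
      exact h3
    · have h4 : ((b : Wr ℤ A)).p x = x + (Classical.choose (Ev.ex b)).2.toAdd := by rw [hb1]; rfl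
      have h2 := le_abs_self N
      have h3 := le_abs_self M
      have h5 := neg_abs_le (Classical.choose (Ev.ex b)).2.toAdd
      have h6 := abs_nonneg N
      have h7 := abs_nonneg M
      have h8 := abs_nonneg (Classical.choose (Ev.ex b)).2.toAdd
      show ((a : Wr ℤ A) * (b : Wr ℤ A)).s x = _
      rw [Wr.mul_s, h4, ha2 _ (by linarith), hb2 _ (by linarith)]
      rfl

theorem lam_ker {a : Ev A} (h : lam A a = 1) : Fsp (a : Wr ℤ A) := by
  obtain ⟨h1, N, h2⟩ := Classical.choose_spec (Ev.ex a)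
  have h3 : Classical.choose (Ev.ex a) = 1 := h
  rw [h3] at h1 h2
  obtain ⟨a, k, M, c, ha, hac⟩ := a
  have hp : a.p = 1 := by
    have h4 : a.p = Equiv.addRight (0 : ℤ) := h1
    rw [h4]
    ext x
    simp
  refine ⟨Finset.Icc (-(|N| + |M|)) (|N| + |M|), fun x hx => ⟨?_, ?_⟩⟩
  · rw [Finset.mem_Icc, not_and_or, not_le, not_le] at hx
    have h5 := le_abs_self N
    have h6 := le_abs_self M
    have h7 := abs_nonneg N
    have h8 := abs_nonneg M
    rcases hx with hx | hx
    · exact (hac x).2 (by linarith)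
    · exact h2 x (by linarith)
  · show a.p x = x
    rw [hp]
    rfl

/-- the group of the eventually constant elements is in the class -/
theorem C_Ev {C : ∀ (G : Type) [Group G], Prop} (hC : ClosedE C) (hA : C A) : C (Ev A) := by
  refine finitary hC hA (Ev A).subtype (lam A).ker ?_ ?_
  · exact hC.base.of_injective _ _ (QuotientGroup.kerLift (lam A)) (QuotientGroup.kerLift_injective _)
      (hC.base.prod _ _ hA hC.base.int)
  · intro n hn
    exact ⟨lam_ker hn, fun h => Subtype.ext h⟩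

theorem Ev_tf (hA : TorF A) : TorF (Ev A) := by
  rintro ⟨a, k, N, c, ha, hac⟩ n hn h
  exact Subtype.ext (ha.tf hA hn (congrArg Subtype.val h))

/-- a step function -/
def stp (a : A) : Ev A := ⟨fn (fun x => if 0 ≤ x then a else 1), 0, 1, a, by
    show (1 : Equiv.Perm ℤ) = _
    ext x
    simp, fun x => ⟨fun hx => if_pos (by linarith), fun hx => if_neg (by linarith)⟩⟩

/-- the shift -/
def sft (A : Type) [Group A] : Ev A := ⟨sh A 1, 1, 0, 1, rfl, fun _ => ⟨fun _ => rfl, fun _ => rfl⟩⟩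

theorem dlt_mem (a : A) : dlt 0 a ∈ Ev A := by
  refine ⟨0, 1, 1, ?_, fun x => ⟨fun hx => ?_, fun hx => ?_⟩⟩
  · show (1 : Equiv.Perm ℤ) = _
    ext x
    simp
  · exact Pi.mulSingle_eq_of_ne (by intro h; subst h; exact absurd hx (by norm_num)) _
  · exact Pi.mulSingle_eq_of_ne (by intro h; subst h; exact absurd hx (by norm_num)) _

/-- the embedding in the eventually constant elements -/
def em : A →* Ev A := (dlt 0).codRestrict (Ev A) dlt_mem

theorem em_inj : Function.Injective (em (A := A)) := by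
  intro a b h
  exact dlt_inj 0 (congrArg Subtype.val h)

/-- it is given by commutators -/
theorem em_comm (a : A) : em a = stp a * (sft A * (stp a)⁻¹ * (sft A)⁻¹) := by
  apply Subtype.ext
  show fn (Pi.mulSingle 0 a) = fn (fun x => if 0 ≤ x then a else 1) *
    (sh A 1 * (fn (fun x => if 0 ≤ x then a else 1))⁻¹ * (sh A 1)⁻¹)
  rw [fn_inv, sh_fn, fn_mul]
  congr 1
  funext x
  show (Pi.mulSingle 0 a : ℤ → A) x = (if 0 ≤ x then a else 1) * (if 0 ≤ x - 1 then a else 1)⁻¹
  by_cases h0 : x = 0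
  · subst h0
    rw [Pi.mulSingle_eq_same]
    simp
  · rw [Pi.mulSingle_eq_of_ne h0]
    by_cases h1 : 0 ≤ x
    · rw [if_pos h1, if_pos (by omega), mul_inv_cancel]
    · rw [if_neg h1, if_neg (by omega), inv_one, mul_one]

end ev

end Pool.Agent.U863.TG
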