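import Pool.Agent.R779.FJ.Col
import Pool.Agent.Y961.FJ.Perm
import Pool.Agent.Y529.FJ.Ext
import Pool.Agent.Y812.SS.Wr

/-!
# Kernels with finite support in unrestricted wreath products

Owner helper863.
-/

set_option autoImplicit false

namespace Pool.Agent.U863.TG

open Pool.Agent.Y462.SS (Wr Closed)
open Pool.Agent.Y110.FJ

variable {X A : Type} [Group A]

/-- the elements of the wreath product which are trivial outside `J` -/
def SJ (A : Type) [Group A] (J : Finset X) : Subgroup (Wr X A) where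
  carrier := {a | ∀ x, x ∉ J → a.s x = 1 ∧ a.p x = x}
  one_mem' := fun _ _ => ⟨rfl, rfl⟩
  mul_mem' := by
    intro a b ha hb x hx
    obtain ⟨h1, h2⟩ := ha x hx
    obtain ⟨h3, h4⟩ := hb x hx
    refine ⟨?_, ?_⟩
    · rw [Wr.mul_s, h4, h1, h3, mul_one]
    · rw [Wr.mul_p, Equiv.Perm.mul_apply, h4, h2]
  inv_mem' := by
    intro a ha x hx
    obtain ⟨h1, h2⟩ := ha x hx
    have h3 : a.p⁻¹ x = x := by rw [Equiv.Perm.inv_eq_iff_eq, h2]
    refine ⟨?_, ?_⟩
    · rw [Wr.inv_s, h3, h1, inv_one]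
    · rw [Wr.inv_p, h3]

theorem SJ_mono {J J' : Finset X} (h : J ⊆ J') : SJ A J ≤ SJ A J' :=
  fun _ ha x hx => ha x (fun hx' => hx (h hx'))

theorem SJ_mem {J : Finset X} {a : Wr X A} (ha : a ∈ SJ A J) (x : X) : a.p x ∈ J ↔ x ∈ J := by
  constructor
  · intro h
    by_contra hx
    rw [(ha x hx).2] at h
    exact hx h
  · intro h
    by_contra hx
    have h1 := (ha _ hx).2
    rw [a.p.injective h1] at hx
    exact hx h

/-- the restriction -/
def res (J : Finset X) : SJ A J →* Wr J A where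
  toFun a := ⟨fun x => a.1.s x, a.1.p.subtypePerm (fun x => SJ_mem a.2 x)⟩
  map_one' := by
    ext x
    · rfl
    · rfl
  map_mul' a b := by
    ext x
    · rfl
    · rfl

theorem res_inj (J : Finset X) : Function.Injective (res (A := A) J) := by
  intro a b h
  apply Subtype.ext
  ext x
  · by_cases hx : x ∈ J
    · exact congrArg (fun c : Wr J A => c.s ⟨x, hx⟩) h
    · rw [(a.2 x hx).1, (b.2 x hx).1]
  · by_cases hx : x ∈ J
    · exact congrArg (fun c : Wr J A => ((c.p ⟨x, hx⟩ : J) : X)) h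
    · rw [(a.2 x hx).2, (b.2 x hx).2]

theorem SJ_conj [DecidableEq X] {J : Finset X} {a : Wr X A} (ha : a ∈ SJ A J) (b : Wr X A) :
    b * a * b⁻¹ ∈ SJ A (J.image b.p) := by
  intro x hx
  obtain ⟨y, rfl⟩ : ∃ y, x = b.p y := ⟨b.p⁻¹ x, by simp⟩
  have hy : y ∉ J := fun h => hx (Finset.mem_image_of_mem _ h)
  obtain ⟨h1, h2⟩ := ha y hy
  refine ⟨?_, ?_⟩
  · simp [h1, h2]
  · simp [h2]

/-- `a` is trivial outside a finite set -/
def Fsp (a : Wr X A) : Prop := ∃ J : Finset X, ∀ x, x ∉ J → a.s x = 1 ∧ a.p x = x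

/-- **kernels with finite support in unrestricted wreath products** -/
theorem finitary {C : ∀ (G : Type) [Group G], Prop} (hC : ClosedE C) (hA : C A) {Γ : Type} [Group Γ]
    (F : Γ →* Wr X A) (N : Subgroup Γ) [N.Normal] (hQ : C (Γ ⧸ N))
    (hN : ∀ n ∈ N, Fsp (F n) ∧ (F n = 1 → n = 1)) : C Γ := by
  classical
  refine Pool.Agent.R779.FJ.t_crit Pool.Agent.Y529.FJ.t_ext
    (Pool.Agent.Y961.FJ.t_perm Pool.Agent.Y529.FJ.t_ext) C hC Γ N hQ ?_
  intro g E hE hEN
  obtain ⟨J, hJ⟩ : ∃ J : Finset X, ∀ n ∈ E, F n ∈ SJ A J := by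
    have h1 : ∀ n : Γ, ∃ J : Finset X, n ∈ E → F n ∈ SJ A J := by
      intro n
      by_cases hn : n ∈ E
      · obtain ⟨J, hJ⟩ := (hN n (hEN hn)).1
        exact ⟨J, fun _ => hJ⟩
      · exact ⟨∅, fun h => absurd h hn⟩
    choose Js hJs using h1
    refine ⟨hE.toFinset.biUnion Js, fun n hn => SJ_mono ?_ (hJs n hn)⟩
    exact Finset.subset_biUnion_of_mem Js (hE.mem_toFinset.2 hn)
  obtain ⟨π, hπ⟩ : ∃ π, π = (F g).p := ⟨_, rfl⟩
  obtain ⟨J', hJ'⟩ : ∃ J' : Finset X, J' = J ∪ J.image π := ⟨_, rfl⟩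
  have hJJ : J ⊆ J' := by
    rw [hJ']
    exact Finset.subset_union_left
  have hJπ : J.image π ⊆ J' := by
    rw [hJ']
    exact Finset.subset_union_right
  have hc : ∀ n ∈ E, F (g * n * g⁻¹) ∈ SJ A (J.image π) := by
    intro n hn
    rw [map_mul, map_mul, map_inv, hπ]
    exact SJ_conj (hJ n hn) _
  have hM : Subgroup.closure (E ∪ (fun x => g * x * g⁻¹) '' E) ≤ (SJ A J').comap F := by
    rw [Subgroup.closure_le]
    rintro x (hx | ⟨y, hy, rfl⟩)
    · exact SJ_mono hJJ (hJ x hx)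
    · exact SJ_mono hJπ (hc y hy)
  have hMN : Subgroup.closure (E ∪ (fun x => g * x * g⁻¹) '' E) ≤ N := by
    rw [Subgroup.closure_le]
    rintro x (hx | ⟨y, hy, rfl⟩)
    · exact hEN hx
    · exact Subgroup.Normal.conj_mem inferInstance y (hEN hy) g
  obtain ⟨σ, hσ⟩ := Equiv.Perm.exists_extending_pair (α := J) (β := J')
    (fun x => ⟨x, hJJ x.2⟩) (fun x => ⟨π x, hJπ (Finset.mem_image_of_mem _ x.2)⟩)
    (fun x y h => Subtype.ext (congrArg (fun z : J' => (z : X)) h))
    (fun x y h => Subtype.ext (π.injective (congrArg (fun z : J' => (z : X)) h)))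
  let f : ↥(Subgroup.closure (E ∪ (fun x => g * x * g⁻¹) '' E)) →* Wr J' A :=
    (res J').comp ((F.comp (Subgroup.subtype _)).codRestrict (SJ A J') (fun x => hM x.2))
  have hfs : ∀ x (y : J'), (f x).s y = (F x).s y := fun _ _ => rfl
  have hfp : ∀ x (y : J'), (((f x).p y : J') : X) = (F x).p y := fun _ _ => rfl
  let q : Wr J' A := ⟨fun y => if (y : X) ∈ J then (F g).s y else 1, σ⟩
  refine ⟨Wr J' A, inferInstance, f, q, Pool.Agent.Y812.SS.t_wr C hC.base J' A inferInstance hA,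
    ?_, ?_⟩
  · rw [injective_iff_map_eq_one]
    intro x hx
    have h1 : F x = 1 := by
      have h2 : ((F.comp (Subgroup.subtype _)).codRestrict (SJ A J') (fun x => hM x.2)) x = 1 :=
        res_inj J' (by rw [map_one]; exact hx)
      exact congrArg Subtype.val h2
    exact Subtype.ext ((hN x (hMN x.2)).2 h1)
  · intro n m hn hm
    rw [eq_mul_inv_iff_mul_eq]
    have hFn : F n ∈ SJ A J := hJ n hn
    have hFm : F m ∈ SJ A (J.image π) := by
      rw [hm]
      exact hc n hn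
    have hmg : F m * F g = F g * F n := by
      rw [hm, map_mul, map_mul, map_inv, inv_mul_cancel_right]
    have hs : ∀ x, (F m).s (π x) * (F g).s x = (F g).s ((F n).p x) * (F n).s x := by
      intro x
      have h1 := congrArg (fun c : Wr X A => c.s x) hmg
      rw [hπ]
      exact h1
    have hp : ∀ x, (F m).p (π x) = π ((F n).p x) := by
      intro x
      have h1 := congrArg (fun c : Wr X A => c.p x) hmg
      rw [hπ]
      exact h1
    have hσJ : ∀ (x : J') (hx : (x : X) ∈ J), ((σ x : J') : X) = π x := by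
      intro x hx
      exact congrArg Subtype.val (hσ ⟨x, hx⟩)
    have hσn : ∀ x : J', (x : X) ∉ J → ((σ x : J') : X) ∉ J.image π := by
      intro x hx h
      rw [Finset.mem_image] at h
      obtain ⟨y, hy, h1⟩ := h
      have h2 : σ x = σ ⟨y, hJJ hy⟩ := Subtype.ext (by rw [hσJ ⟨y, hJJ hy⟩ hy, h1])
      have h3 := congrArg Subtype.val (σ.injective h2)
      rw [h3] at hx
      exact hx hy
    ext x
    · show (f m).s (σ x) * (if (x : X) ∈ J then (F g).s x else 1) =
        (if (((f n).p x : J') : X) ∈ J then (F g).s (((f n).p x : J') : X) else 1) * (f n).s x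
      rw [hfs, hfs, hfp]
      by_cases hx : (x : X) ∈ J
      · rw [if_pos hx, if_pos ((SJ_mem hFn x).2 hx), hσJ x hx, hs]
      · rw [if_neg hx, if_neg (fun h => hx ((SJ_mem hFn x).1 h)), (hFn x hx).1,
          (hFm _ (hσn x hx)).1]
    · show (((f m).p (σ x) : J') : X) = ((σ ((f n).p x) : J') : X)
      rw [hfp]
      by_cases hx : (x : X) ∈ J
      · rw [hσJ x hx, hp, hσJ _ (by rw [hfp]; exact (SJ_mem hFn x).2 hx), hfp]
      · have h1 : (f n).p x = x := Subtype.ext (by rw [hfp, (hFn x hx).2])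
        rw [h1, (hFm _ (hσn x hx)).2]

end Pool.Agent.U863.TG
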