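import Pool.Agent.U863.TG.Ev

/-!
# Embeddings in two-generator groups: the construction

Owner helper863.
-/

set_option autoImplicit false

namespace Pool.Agent.U863.TG

open Pool.Agent.Y462.SS (Wr Closed)
open Pool.Agent.Y110.FJ
open scoped commutatorElement

theorem metab {K : Type} [Group K] (A : Subgroup K) (hA : ∀ x ∈ A, ∀ y ∈ A, x * y = y * x)
    (hK : ∀ x y : K, ⁅x, y⁆ ∈ A) : derivedSeries K 2 = ⊥ := by
  have h1 : derivedSeries K 1 ≤ A := by
    rw [derivedSeries_one, commutator_def, Subgroup.commutator_le]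
    exact fun x _ y _ => hK x y
  rw [derivedSeries_succ, eq_bot_iff, Subgroup.commutator_le]
  intro x hx y hy
  rw [Subgroup.mem_bot, commutatorElement_eq_one_iff_mul_comm]
  exact hA x (h1 hx) y (h1 hy)

section ac

variable {A : Type} [Group A]

/-- the functions which commute with `χ` up to finitely many arguments -/
def Cen (χ : ℤ → A) : Subgroup (ℤ → A) where
  carrier := {ψ | {x | ψ x * χ x ≠ χ x * ψ x}.Finite}
  one_mem' := by
    show {x | (1 : A) * χ x ≠ χ x * 1}.Finite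
    simp
  mul_mem' := by
    intro a b ha hb
    refine (Set.Finite.union ha hb).subset ?_
    intro x hx
    by_contra hcon
    rw [Set.mem_union, not_or] at hcon
    have h1 : a x * χ x = χ x * a x := not_not.1 hcon.1
    have h2 : b x * χ x = χ x * b x := not_not.1 hcon.2
    apply hx
    show a x * b x * χ x = χ x * (a x * b x)
    rw [mul_assoc, h2, ← mul_assoc, h1, mul_assoc]
  inv_mem' := by
    intro a ha
    refine Set.Finite.subset ha ?_
    intro x hx h
    apply hx
    show (a x)⁻¹ * χ x = χ x * (a x)⁻¹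
    have h1 : a x * χ x = χ x * a x := h
    rw [inv_mul_eq_iff_eq_mul, ← mul_assoc, h1, mul_inv_cancel_right]

theorem Cen_symm {χ ψ : ℤ → A} (h : ψ ∈ Cen χ) : χ ∈ Cen ψ := by
  refine Set.Finite.subset h ?_
  intro x hx h1
  exact hx h1.symm

/-- the group generated by the translates -/
def Z1 (φ : ℤ → A) : Subgroup (ℤ → A) := Subgroup.closure (Set.range fun i : ℤ => fun x => φ (x - i))

theorem Z1_shift {φ ψ : ℤ → A} (h : ψ ∈ Z1 φ) (l : ℤ) : (fun x => ψ (x + l)) ∈ Z1 φ := by
  induction h using Subgroup.closure_induction with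
  | mem ψ hψ =>
    obtain ⟨i, rfl⟩ := hψ
    refine Subgroup.subset_closure ⟨i - l, ?_⟩
    funext x
    show φ (x - (i - l)) = φ (x + l - i)
    congr 1
    ring
  | one => exact one_mem _
  | mul a b _ _ ha hb => exact mul_mem ha hb
  | inv a _ ha => exact inv_mem ha

theorem Z1_comm {φ : ℤ → A} (hφ : ∀ i j : ℤ, (fun x => φ (x - i)) ∈ Cen (fun x => φ (x - j)))
    {ψ χ : ℤ → A} (hψ : ψ ∈ Z1 φ) (hχ : χ ∈ Z1 φ) : ψ ∈ Cen χ := by
  have h1 : ∀ j : ℤ, Z1 φ ≤ Cen (fun x => φ (x - j)) := by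
    intro j
    rw [Z1, Subgroup.closure_le]
    rintro _ ⟨i, rfl⟩
    exact hφ i j
  have h2 : Z1 φ ≤ Cen ψ := by
    rw [Z1, Subgroup.closure_le]
    rintro _ ⟨i, rfl⟩
    exact Cen_symm (h1 i hψ)
  exact Cen_symm (h2 hχ)

/-- the elements whose function is a product of translates of `φ` -/
def Kp (φ : ℤ → A) : Subgroup (Wr ℤ A) where
  carrier := {a | ∃ k, Sh a k ∧ a.s ∈ Z1 φ}
  one_mem' := ⟨0, by
    show (1 : Equiv.Perm ℤ) = _
    ext x
    simp, one_mem _⟩
  mul_mem' := by
    rintro a b ⟨k, ha, ha'⟩ ⟨l, hb, hb'⟩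
    refine ⟨l + k, ha.mul hb, ?_⟩
    have h1 : (a * b).s = (fun x => a.s (x + l)) * b.s := by
      funext x
      have h2 : b.p x = x + l := by rw [hb]; rfl
      rw [Wr.mul_s, h2]
      rfl
    rw [h1]
    exact mul_mem (Z1_shift ha' l) hb'
  inv_mem' := by
    rintro a ⟨k, ha, ha'⟩
    refine ⟨-k, ha.inv, ?_⟩
    have h1 : (a⁻¹).s = (fun x => a.s (x + -k))⁻¹ := by
      funext x
      have h2 : a.p⁻¹ x = x + -k := by rw [ha]; rfl
      rw [Wr.inv_s, h2]
      rfl
    rw [h1]
    exact inv_mem (Z1_shift ha' _)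

end ac

section two

variable {A : Type} [Group A] (e : ℕ → A)

open Classical in
/-- the function with value `e n` at `2 ^ n` -/
noncomputable def ph (x : ℤ) : A := if h : ∃ n : ℕ, x = 2 ^ n then e (Classical.choose h) else 1

theorem two_inj {m n : ℕ} (h : (2 : ℤ) ^ m = 2 ^ n) : m = n := by
  have h1 : (2 : ℕ) ^ m = 2 ^ n := by exact_mod_cast h
  exact Nat.pow_right_injective (le_refl 2) h1

theorem ph_pow (n : ℕ) : ph e (2 ^ n) = e n := by
  have h : ∃ m : ℕ, (2 : ℤ) ^ n = 2 ^ m := ⟨n, rfl⟩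
  rw [ph, dif_pos h]
  rw [← two_inj (Classical.choose_spec h)]

theorem ph_ne {x : ℤ} (h : ph e x ≠ 1) : ∃ n : ℕ, x = 2 ^ n := by
  by_contra hcon
  exact h (dif_neg hcon)

theorem ph_cen (i j : ℤ) : (fun x => ph e (x - i)) ∈ Cen (fun x => ph e (x - j)) := by
  by_cases hij : i = j
  · subst hij
    show {x | ph e (x - i) * ph e (x - i) ≠ ph e (x - i) * ph e (x - i)}.Finite
    simp
  · refine (Set.finite_Icc i (i + 2 * |j - i|)).subset ?_
    intro x hx
    have h1 : ph e (x - i) ≠ 1 := by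
      intro h
      apply hx
      show ph e (x - i) * ph e (x - j) = ph e (x - j) * ph e (x - i)
      rw [h, one_mul, mul_one]
    have h2 : ph e (x - j) ≠ 1 := by
      intro h
      apply hx
      show ph e (x - i) * ph e (x - j) = ph e (x - j) * ph e (x - i)
      rw [h, one_mul, mul_one]
    obtain ⟨a, ha⟩ := ph_ne e h1
    obtain ⟨b, hb⟩ := ph_ne e h2
    have hab : a ≠ b := by
      rintro rfl
      apply hij
      linarith
    have hpa : (0 : ℤ) < 2 ^ a := by positivity
    have hpb : (0 : ℤ) < 2 ^ b := by positivity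
    rw [Set.mem_Icc]
    refine ⟨by linarith, ?_⟩
    rcases lt_or_gt_of_ne hab with h | h
    · have h3 : (2 : ℤ) ^ (a + 1) ≤ 2 ^ b := pow_le_pow_right₀ (by norm_num) h
      rw [pow_succ] at h3
      have h4 : |j - i| = |(2 : ℤ) ^ a - 2 ^ b| := by
        rw [← ha, ← hb]
        congr 1
        ring
      rw [h4, abs_of_neg (by linarith)]
      linarith
    · have h3 : (2 : ℤ) ^ (b + 1) ≤ 2 ^ a := pow_le_pow_right₀ (by norm_num) h
      rw [pow_succ] at h3
      have h4 : |j - i| = |(2 : ℤ) ^ a - 2 ^ b| := by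
        rw [← ha, ← hb]
        congr 1
        ring
      rw [h4, abs_of_pos (by linarith)]
      linarith

/-- the two-generator group -/
noncomputable def TG : Subgroup (Wr ℤ A) := Subgroup.closure {fn (ph e), sh A 1}

theorem TG_le : TG e ≤ Kp (ph e) := by
  rw [TG, Subgroup.closure_le]
  rintro x (rfl | rfl)
  · refine ⟨0, ?_, Subgroup.subset_closure ⟨0, ?_⟩⟩
    · show (1 : Equiv.Perm ℤ) = _
      ext x
      simp
    · funext x
      show ph e (x - 0) = ph e x
      rw [sub_zero]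
  · exact ⟨1, rfl, one_mem _⟩

theorem Fsp_iff {X : Type} {a : Wr X A} : Fsp a ↔ ∃ J : Finset X, a ∈ SJ A J := Iff.rfl

/-- the elements of finite support -/
def FN (G : Subgroup (Wr ℤ A)) : Subgroup G where
  carrier := {x | Fsp (x : Wr ℤ A)}
  one_mem' := ⟨∅, fun _ _ => ⟨rfl, rfl⟩⟩
  mul_mem' := by
    classical
    rintro a b ⟨J, hJ⟩ ⟨J', hJ'⟩
    exact ⟨J ∪ J', mul_mem (SJ_mono Finset.subset_union_left hJ : (a : Wr ℤ A) ∈ SJ A (J ∪ J'))
      (SJ_mono Finset.subset_union_right hJ' : (b : Wr ℤ A) ∈ SJ A (J ∪ J'))⟩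
  inv_mem' := by
    rintro a ⟨J, hJ⟩
    exact ⟨J, inv_mem (show (a : Wr ℤ A) ∈ SJ A J from hJ)⟩

instance FN_normal (G : Subgroup (Wr ℤ A)) : (FN G).Normal := by
  classical
  refine ⟨?_⟩
  rintro a ⟨J, hJ⟩ g
  exact ⟨J.image (g : Wr ℤ A).p, SJ_conj hJ _⟩

/-- the two-generator group is in the class -/
theorem C_TG {C : ∀ (G : Type) [Group G], Prop} (hC : ClosedE C)
    (hM : ∀ (G : Type) [Group G], derivedSeries G 2 = ⊥ → C G) (hA : C A) : C (TG e) := by
  refine finitary hC hA (TG e).subtype (FN (TG e)) ?_ fun n hn => ⟨hn, fun h => Subtype.ext h⟩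
  obtain ⟨B, hB⟩ : ∃ B : Subgroup (TG e), ∀ x, x ∈ B ↔ Sh (x : Wr ℤ A) 0 := by
    refine ⟨{ carrier := {x | Sh (x : Wr ℤ A) 0}
              one_mem' := by
                show (1 : Equiv.Perm ℤ) = _
                ext x
                simp
              mul_mem' := by
                intro a b ha hb
                have := Sh.mul (show Sh (a : Wr ℤ A) 0 from ha) (show Sh (b : Wr ℤ A) 0 from hb)
                rwa [add_zero] at this
              inv_mem' := by
                intro a ha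
                have := Sh.inv (show Sh (a : Wr ℤ A) 0 from ha)
                rwa [neg_zero] at this }, fun x => Iff.rfl⟩
  refine hM _ (metab (B.map (QuotientGroup.mk' (FN (TG e)))) ?_ ?_)
  · rintro _ ⟨a, ha, rfl⟩ _ ⟨b, hb, rfl⟩
    rw [← map_mul, ← map_mul]
    refine QuotientGroup.eq.2 ?_
    obtain ⟨-, -, ha2⟩ := TG_le e a.2
    obtain ⟨-, -, hb2⟩ := TG_le e b.2
    have hap : (a : Wr ℤ A).p = 1 := by
      have : Sh (a : Wr ℤ A) 0 := (hB a).1 ha
      rw [this]
      ext x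
      simp
    have hbp : (b : Wr ℤ A).p = 1 := by
      have : Sh (b : Wr ℤ A) 0 := (hB b).1 hb
      rw [this]
      ext x
      simp
    have h1 := Z1_comm (ph_cen e) ha2 hb2
    refine ⟨h1.toFinset, fun x hx => ?_⟩
    have h2 : (a : Wr ℤ A).s x * (b : Wr ℤ A).s x = (b : Wr ℤ A).s x * (a : Wr ℤ A).s x := by
      by_contra hcon
      exact hx ((Set.Finite.mem_toFinset h1).2 hcon)
    constructor
    · show ((((a : Wr ℤ A) * (b : Wr ℤ A))⁻¹ * ((b : Wr ℤ A) * (a : Wr ℤ A)))).s x = 1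
      simp only [Wr.mul_s, Wr.inv_s, Wr.mul_p, hap, hbp, one_mul, inv_one, Equiv.Perm.one_apply]
      rw [h2, inv_mul_cancel]
    · show ((((a : Wr ℤ A) * (b : Wr ℤ A))⁻¹ * ((b : Wr ℤ A) * (a : Wr ℤ A)))).p x = x
      simp only [Wr.inv_p, Wr.mul_p, hap, hbp, one_mul, inv_one, Equiv.Perm.one_apply]
  · intro x y
    obtain ⟨a, rfl⟩ := QuotientGroup.mk_surjective x
    obtain ⟨b, rfl⟩ := QuotientGroup.mk_surjective y
    refine ⟨⁅a, b⁆, (hB _).2 ?_, rfl⟩
    obtain ⟨k, ha, -⟩ := TG_le e a.2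
    obtain ⟨l, hb, -⟩ := TG_le e b.2
    have h1 := ((ha.mul hb).mul ha.inv).mul hb.inv
    have h2 : -l + (-k + (l + k)) = 0 := by ring
    rw [h2] at h1
    exact h1

theorem TG_tf (hA : TorF A) : TorF (TG e) := by
  intro g n hn h
  obtain ⟨k, hk, -⟩ := TG_le e g.2
  exact Subtype.ext (hk.tf hA hn (congrArg Subtype.val h))

theorem fn_TG : fn (ph e) ∈ TG e :=
  Subgroup.subset_closure (Set.mem_insert (fn (ph e)) {sh A 1})

theorem sh_TG : sh A 1 ∈ TG e :=
  Subgroup.subset_closure (Set.mem_insert_of_mem (fn (ph e)) (Set.mem_singleton (sh A 1)))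

/-- commutators of `e 0` and `e (m + 1)` -/
theorem dlt_TG (m : ℕ) :
    dlt 0 (e (m + 1) * (e 0 * (e (m + 1))⁻¹ * (e 0)⁻¹)) ∈ TG e := by
  have hf : fn (ph e) ∈ TG e := fn_TG e
  have hs : ∀ k : ℤ, sh A k ∈ TG e := by
    intro k
    rw [← sh_zpow]
    exact zpow_mem (sh_TG e) k
  obtain ⟨u, hu⟩ : ∃ u : ℤ, u = 2 ^ (m + 1) := ⟨_, rfl⟩
  -- the commutator of `f` with its translate
  have h1 : fn (ph e) * (fn (fun x => ph e (x - (u - 1))) * (fn (ph e))⁻¹ *
      (fn (fun x => ph e (x - (u - 1))))⁻¹) ∈ TG e := by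
    rw [← sh_fn (u - 1) (ph e)]
    have h2 := mul_mem (mul_mem (hs (u - 1)) hf) (inv_mem (hs (u - 1)))
    exact mul_mem hf (mul_mem (mul_mem h2 (inv_mem hf)) (inv_mem h2))
  have h2 := mul_mem (mul_mem (hs (-u)) h1) (inv_mem (hs (-u)))
  have h3 : sh A (-u) * (fn (ph e) * (fn (fun x => ph e (x - (u - 1))) * (fn (ph e))⁻¹ *
      (fn (fun x => ph e (x - (u - 1))))⁻¹)) * (sh A (-u))⁻¹ =
      dlt 0 (e (m + 1) * (e 0 * (e (m + 1))⁻¹ * (e 0)⁻¹)) := by
    rw [fn_inv, fn_inv, fn_mul, fn_mul, fn_mul, sh_fn]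
    refine congrArg (fn (A := A)) (funext fun x => ?_)
    show ph e (x - -u) * (ph e (x - -u - (u - 1)) * (ph e (x - -u))⁻¹ *
      (ph e (x - -u - (u - 1)))⁻¹) = (Pi.mulSingle 0 (e (m + 1) * (e 0 * (e (m + 1))⁻¹ * (e 0)⁻¹)) :
        ℤ → A) x
    have h4 : x - -u = x + u := by ring
    have h5 : x + u - (u - 1) = x + 1 := by ring
    rw [h4, h5]
    by_cases hx : x = 0
    · subst hx
      have h6 : ph e (0 + u) = e (m + 1) := by rw [zero_add, hu, ph_pow]
      have h7 : ph e (0 + 1) = e 0 := by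
        have := ph_pow e 0
        rwa [pow_zero] at this
      rw [Pi.mulSingle_eq_same, h6, h7]
    · rw [Pi.mulSingle_eq_of_ne hx]
      by_cases h8 : ph e (x + 1) = 1
      · rw [h8]
        group
      · by_cases h9 : ph e (x + u) = 1
        · rw [h9]
          group
        · exfalso
          obtain ⟨a, ha⟩ := ph_ne e h8
          obtain ⟨b, hb⟩ := ph_ne e h9
          have h10 : (2 : ℤ) ^ b = 2 ^ a + (2 ^ (m + 1) - 1) := by
            rw [← ha, ← hb, ← hu]
            ring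
          have ha0 : a = 0 := by
            by_contra ha0
            obtain ⟨a', rfl⟩ := Nat.exists_eq_succ_of_ne_zero ha0
            have hb0 : b ≠ 0 := by
              rintro rfl
              have h11 : (0 : ℤ) < 2 ^ (Nat.succ a') := by positivity
              have h12 : (2 : ℤ) ≤ 2 ^ (m + 1) := by
                calc (2 : ℤ) = 2 ^ 1 := by norm_num
                  _ ≤ 2 ^ (m + 1) := pow_le_pow_right₀ (by norm_num) (by omega)
              rw [pow_zero] at h10
              linarith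
            obtain ⟨b', rfl⟩ := Nat.exists_eq_succ_of_ne_zero hb0
            rw [pow_succ, pow_succ, pow_succ] at h10
            omega
          rw [ha0, pow_zero] at ha
          apply hx
          linarith
  rwa [h3] at h2

end two

/-- **countable groups in the class embed in two-generator groups in the class** -/
theorem embed {C : ∀ (G : Type) [Group G], Prop} (hC : ClosedE C)
    (hM : ∀ (G : Type) [Group G], derivedSeries G 2 = ⊥ → C G) (H : Type) [Group H]
    (hH : Countable H) (hCH : C H) :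
    ∃ (G : Type) (_ : Group G) (a b : G) (j : H →* G), C G ∧ Subgroup.closure {a, b} = ⊤ ∧
      Function.Injective j ∧ (TorF H → TorF G) := by
  obtain ⟨s, hs⟩ := exists_surjective_nat H
  let e : ℕ → Ev H := fun n => Nat.casesOn n (sft H) (fun m => stp (s m))
  have hmem : ∀ h : H, dlt 0 (em h) ∈ TG e := by
    intro h
    obtain ⟨m, rfl⟩ := hs h
    rw [em_comm]
    exact dlt_TG e m
  refine ⟨TG e, inferInstance, ⟨fn (ph e), fn_TG e⟩, ⟨sh (Ev H) 1, sh_TG e⟩,
    ((dlt 0).comp em).codRestrict (TG e) hmem, C_TG e hC hM (C_Ev hC hCH), ?_, ?_,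
    fun h => TG_tf e (Ev_tf h)⟩
  · rw [eq_top_iff]
    refine (Subgroup.closure_closure_coe_preimage (k := {fn (ph e), sh (Ev H) 1})).symm.le.trans
      (Subgroup.closure_mono ?_)
    rintro ⟨x, hx⟩ (h | h)
    · exact Or.inl (Subtype.ext h)
    · exact Or.inr (Subtype.ext h)
  · intro x y h
    exact em_inj (dlt_inj 0 (congrArg Subtype.val h))

/-- countable families -/
theorem embed_family {C : ∀ (G : Type) [Group G], Prop} (hC : ClosedE C)
    (hM : ∀ (G : Type) [Group G], derivedSeries G 2 = ⊥ → C G) (H : ℕ → Type) [∀ i, Group (H i)]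
    (hH : ∀ i, Countable (H i)) (hCH : ∀ i, C (H i)) :
    ∃ (G : Type) (_ : Group G) (a b : G), C G ∧ Subgroup.closure {a, b} = ⊤ ∧
      (∀ i, ∃ j : H i →* G, Function.Injective j) ∧ ((∀ i, TorF (H i)) → TorF G) := by
  classical
  have hcount : Countable (Monoid.CoprodI H) := by
    have h1 : Countable (FreeMonoid (Σ i, H i)) := by
      unfold FreeMonoid
      infer_instance
    exact Function.Surjective.countable (Con.mk'_surjective (c := Monoid.CoprodI.Rel H |> conGen))
  obtain ⟨G, _, a, b, j, h1, h2, h3, h4⟩ := embed hC hM (Monoid.CoprodI H) hcount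
    (Pool.Agent.U863.CT.C_coprodI C hC.base hCH)
  refine ⟨G, _, a, b, h1, h2, fun i => ⟨j.comp Monoid.CoprodI.of,
    h3.comp (Monoid.CoprodI.of_injective i)⟩, fun h => h4 ?_⟩
  intro g n hn hg
  rcases Pool.Agent.U863.CT.torsion_coprodI g (isOfFinOrder_iff_pow_eq_one.2 ⟨n, hn, hg⟩) with
    h5 | ⟨i, x, c, h5⟩
  · exact h5
  · have h6 : (c * Monoid.CoprodI.of x * c⁻¹) ^ n = 1 := by rw [← h5, hg]
    rw [conj_pow, conj_eq_one_iff, ← map_pow] at h6
    have h7 : x ^ n = 1 := Monoid.CoprodI.of_injective i (by rw [h6, map_one])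
    rw [h5, h i x n hn h7, map_one, mul_one, mul_inv_cancel]

end Pool.Agent.U863.TG
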